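import Pool.Agent.TH220.HG.Sub

/-! Deformations of lattices by `1 + τ T`, for `T` symmetric with trace zero (for MP_ef2672_gt). -/

open Matrix Finset

namespace Pool.Agent.Q219.HE

open Pool.Agent.H160R3.Herm Pool.Agent.TH220.HG

/-- the value at the lattice vector `A w` of the quadratic form with the matrix `T` -/
noncomputable def qf {n : ℕ} (T A : Matrix (Fin n) (Fin n) ℝ) (w : Fin n → ℤ) : ℝ :=
  (A *ᵥ fun j => (w j : ℝ)) ⬝ᵥ (T *ᵥ (A *ᵥ fun j => (w j : ℝ)))

theorem one_add_le {x : ℝ} (h1 : -1 ≤ x) (h2 : x ≤ 1) : 1 + x ≤ Real.exp (x - x ^ 2 / 4) := by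
  rcases le_total 0 x with h | h
  · have h3 := Real.quadratic_le_exp_of_nonneg (x := x - x ^ 2 / 4) (by nlinarith)
    have h4 : x ^ 2 / 2 ≤ (x - x ^ 2 / 4) ^ 2 := by
      have : (x - x ^ 2 / 4) ^ 2 = x ^ 2 * (1 - x / 4) ^ 2 := by ring
      rw [this]
      have h5 : (1 : ℝ) / 2 ≤ (1 - x / 4) ^ 2 := by nlinarith
      nlinarith [sq_nonneg x]
    linarith
  · set w := -x + x ^ 2 / 4 with hw
    have h3 : x - x ^ 2 / 4 = -(w / 2) + -(w / 2) := by rw [hw]; ring
    rw [h3, Real.exp_add]
    have h4 : 1 - w / 2 ≤ Real.exp (-(w / 2)) := by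
      have := Real.add_one_le_exp (-(w / 2))
      linarith
    have h5 : 0 ≤ 1 - w / 2 := by rw [hw]; nlinarith
    have h6 : (1 - w / 2) * (1 - w / 2) ≤ Real.exp (-(w / 2)) * Real.exp (-(w / 2)) :=
      mul_le_mul h4 h4 h5 (h5.trans h4)
    refine le_trans ?_ h6
    have h7 : x ^ 2 ≤ w ^ 2 := by
      rw [hw]
      nlinarith [sq_nonneg x]
    nlinarith

theorem trace_sq {n : ℕ} {P : Matrix (Fin n) (Fin n) ℝ} (hP : P.IsHermitian) :
    ∑ i, ∑ j, P i j ^ 2 = ∑ i, hP.eigenvalues i ^ 2 := by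
  have h1 : ∑ i, ∑ j, P i j ^ 2 = (P * P).trace := by
    unfold Matrix.trace
    refine Finset.sum_congr rfl fun i _ => ?_
    rw [Matrix.diag_apply, Matrix.mul_apply]
    refine Finset.sum_congr rfl fun j _ => ?_
    have : P j i = P i j := by
      have := hP.apply i j
      simpa using this
    rw [this]; ring
  rw [h1]
  set U := (hP.eigenvectorUnitary : Matrix (Fin n) (Fin n) ℝ) with hU
  set D := Matrix.diagonal hP.eigenvalues with hD
  have h2 : P = U * D * star U := by
    have := hP.spectral_theorem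
    rw [Unitary.conjStarAlgAut_apply] at this
    exact this
  have h3 : star U * U = 1 := Unitary.coe_star_mul_self _
  have h4 : P * P = U * (D * D) * star U := by
    calc P * P = (U * D * star U) * (U * D * star U) := by rw [← h2]
      _ = U * D * (star U * U) * D * star U := by simp only [Matrix.mul_assoc]
      _ = U * (D * D) * star U := by rw [h3, Matrix.mul_one]; simp only [Matrix.mul_assoc]
  rw [h4, Matrix.trace_mul_cycle, h3, Matrix.one_mul, hD, Matrix.diagonal_mul_diagonal,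
    Matrix.trace_diagonal]
  refine Finset.sum_congr rfl fun i _ => ?_
  ring

end Pool.Agent.Q219.HE
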