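import Pool.Agent.Q219.HE.Def

/-! Deformations of lattices by `1 + τ T`, for `T` symmetric with trace zero (for MP_ef2672_gt). -/

open Matrix Finset

namespace Pool.Agent.Q219.HE

open Pool.Agent.H160R3.Herm Pool.Agent.TH220.HG

theorem nsq_eq_dot {n : ℕ} (A : Matrix (Fin n) (Fin n) ℝ) (w : Fin n → ℤ) :
    nsq A w = (A *ᵥ fun j => (w j : ℝ)) ⬝ᵥ (A *ᵥ fun j => (w j : ℝ)) := by
  unfold nsq dotProduct
  refine Finset.sum_congr rfl fun i _ => ?_
  ring

theorem factor {n : ℕ} {P : Matrix (Fin n) (Fin n) ℝ} (hP : P.IsHermitian)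
    (h0 : ∀ i, 0 ≤ hP.eigenvalues i) : ∃ B : Matrix (Fin n) (Fin n) ℝ, Bᵀ * B = P := by
  set U := (hP.eigenvectorUnitary : Matrix (Fin n) (Fin n) ℝ) with hU
  set D := Matrix.diagonal hP.eigenvalues with hD
  have h2 : P = U * D * star U := by
    have := hP.spectral_theorem
    rw [Unitary.conjStarAlgAut_apply] at this
    exact this
  refine ⟨Matrix.diagonal (fun i => √(hP.eigenvalues i)) * star U, ?_⟩
  have h3 : (star U)ᵀ = U := by
    rw [Matrix.star_eq_conjTranspose, Matrix.conjTranspose_eq_transpose_of_trivial,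
      Matrix.transpose_transpose]
  rw [Matrix.transpose_mul, h3, Matrix.diagonal_transpose]
  have h4 : Matrix.diagonal (fun i => √(hP.eigenvalues i)) *
      Matrix.diagonal (fun i => √(hP.eigenvalues i)) = D := by
    rw [Matrix.diagonal_mul_diagonal, hD]
    congr 1
    funext i
    exact Real.mul_self_sqrt (h0 i)
  calc U * Matrix.diagonal (fun i => √(hP.eigenvalues i)) *
        (Matrix.diagonal (fun i => √(hP.eigenvalues i)) * star U)
      = U * (Matrix.diagonal (fun i => √(hP.eigenvalues i)) *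
        Matrix.diagonal (fun i => √(hP.eigenvalues i))) * star U := by
        simp only [Matrix.mul_assoc]
    _ = U * D * star U := by rw [h4]
    _ = P := h2.symm

theorem deform {n : ℕ} {A T : Matrix (Fin n) (Fin n) ℝ}
    (hT : T.IsSymm) (htr : T.trace = 0) (hb : ∀ y : Fin n → ℝ, |y ⬝ᵥ (T *ᵥ y)| ≤ y ⬝ᵥ y)
    {τ : ℝ} (h0 : 0 ≤ τ) (h1 : τ < 1) :
    ∃ B : Matrix (Fin n) (Fin n) ℝ, B.det ≠ 0 ∧
      B.det ^ 2 ≤ Real.exp (-(τ ^ 2 * (∑ i, ∑ j, T i j ^ 2) / 4)) ∧
      ∀ w : Fin n → ℤ, nsq (B * A) w = nsq A w + τ * qf T A w := by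
  classical
  set P : Matrix (Fin n) (Fin n) ℝ := 1 + τ • T with hPdef
  have hPs : P.IsHermitian := by
    rw [Matrix.IsHermitian, Matrix.conjTranspose_eq_transpose_of_trivial, hPdef,
      Matrix.transpose_add, Matrix.transpose_one, Matrix.transpose_smul, hT.eq]
  have hPy : ∀ y : Fin n → ℝ, y ⬝ᵥ (P *ᵥ y) = y ⬝ᵥ y + τ * (y ⬝ᵥ (T *ᵥ y)) := by
    intro y
    rw [hPdef, Matrix.add_mulVec, Matrix.one_mulVec, Matrix.smul_mulVec, dotProduct_add,
      dotProduct_smul, smul_eq_mul]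
  have hev : ∀ i, |hPs.eigenvalues i - 1| ≤ τ := by
    intro i
    have e1 := hPs.eigenvalues_eq i
    set v : Fin n → ℝ := ⇑(hPs.eigenvectorBasis i) with hv
    have e2 : v ⬝ᵥ v = 1 := by
      have h3 : ‖hPs.eigenvectorBasis i‖ = 1 := hPs.eigenvectorBasis.orthonormal.1 i
      have h4 := EuclideanSpace.real_norm_sq_eq (hPs.eigenvectorBasis i)
      rw [h3] at h4
      rw [dotProduct]
      have : ∑ j, v j * v j = ∑ j, (hPs.eigenvectorBasis i) j ^ 2 := by
        refine Finset.sum_congr rfl fun j _ => ?_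
        rw [hv]; ring
      rw [this, ← h4]; norm_num
    have e3 : hPs.eigenvalues i = v ⬝ᵥ (P *ᵥ v) := by
      rw [e1]
      simp
    rw [e3, hPy, e2]
    have h5 := hb v
    rw [e2] at h5
    rw [show (1 : ℝ) + τ * (v ⬝ᵥ (T *ᵥ v)) - 1 = τ * (v ⬝ᵥ (T *ᵥ v)) by ring, abs_mul,
      abs_of_nonneg h0]
    exact mul_le_of_le_one_right h0 h5
  have hpos : ∀ i, 0 < hPs.eigenvalues i := by
    intro i
    have := (abs_le.1 (hev i)).1
    linarith
  obtain ⟨B, hB⟩ := factor hPs (fun i => (hpos i).le)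
  have hdet : B.det ^ 2 = P.det := by
    rw [← hB, Matrix.det_mul, Matrix.det_transpose]; ring
  have hPdet : P.det = ∏ i, hPs.eigenvalues i := by
    have := hPs.det_eq_prod_eigenvalues
    simpa using this
  have hsum1 : ∑ i, hPs.eigenvalues i = n := by
    have h3 : P.trace = ∑ i, hPs.eigenvalues i := by
      have := hPs.trace_eq_sum_eigenvalues
      simpa using this
    rw [← h3, hPdef, Matrix.trace_add, Matrix.trace_smul, htr, Matrix.trace_one]
    simp
  have hsum2 : ∑ i, hPs.eigenvalues i ^ 2 = n + τ ^ 2 * ∑ i, ∑ j, T i j ^ 2 := by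
    rw [← trace_sq hPs]
    have h3 : ∀ i j, P i j ^ 2 = (if i = j then 1 else 0) + (if i = j then 2 * τ * T i i else 0)
        + τ ^ 2 * T i j ^ 2 := by
      intro i j
      rw [hPdef, Matrix.add_apply, Matrix.smul_apply, smul_eq_mul, Matrix.one_apply]
      by_cases h : i = j
      · subst h; simp; ring
      · simp [h]; ring
    have h4 : ∑ i, 2 * τ * T i i = 0 := by
      rw [← Finset.mul_sum]
      have : ∑ i, T i i = 0 := htr
      rw [this, mul_zero]
    simp only [h3, Finset.sum_add_distrib, Finset.sum_ite_eq, Finset.mem_univ, if_true, h4,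
      ← Finset.mul_sum, add_zero]
    simp
  refine ⟨B, ?_, ?_, ?_⟩
  · intro h
    rw [h] at hdet
    have : 0 < ∏ i, hPs.eigenvalues i := Finset.prod_pos fun i _ => hpos i
    rw [← hPdet, ← hdet] at this
    norm_num at this
  · rw [hdet, hPdet]
    calc ∏ i, hPs.eigenvalues i
        ≤ ∏ i, Real.exp ((hPs.eigenvalues i - 1) - (hPs.eigenvalues i - 1) ^ 2 / 4) := by
          refine Finset.prod_le_prod (fun i _ => (hpos i).le) fun i _ => ?_
          have h5 := abs_le.1 (hev i)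
          have := one_add_le (x := hPs.eigenvalues i - 1) (by linarith) (by linarith)
          linarith
      _ = Real.exp (∑ i, ((hPs.eigenvalues i - 1) - (hPs.eigenvalues i - 1) ^ 2 / 4)) :=
          (Real.exp_sum _ _).symm
      _ = _ := by
          congr 1
          have h6 : ∀ i, (hPs.eigenvalues i - 1) - (hPs.eigenvalues i - 1) ^ 2 / 4
              = 3 / 2 * hPs.eigenvalues i - 5 / 4 - 1 / 4 * hPs.eigenvalues i ^ 2 := by
            intro i; ring
          simp only [h6, Finset.sum_sub_distrib, ← Finset.mul_sum, hsum1, hsum2]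
          simp
          ring
  · intro w
    rw [nsq_eq_dot, nsq_eq_dot, ← Matrix.mulVec_mulVec]
    set y := A *ᵥ fun j => (w j : ℝ) with hy
    have h7 : (B *ᵥ y) ⬝ᵥ (B *ᵥ y) = y ⬝ᵥ (P *ᵥ y) := by
      rw [← hB, ← Matrix.mulVec_mulVec, Matrix.dotProduct_mulVec y, Matrix.vecMul_transpose]
    rw [h7, hPy]
    rfl

/-- The key inequality: a deformation of the lattice has normalised minimum at most `γ_n`. -/
theorem key {n : ℕ} (hn : 0 < n) {A T : Matrix (Fin n) (Fin n) ℝ} (hA : A.det ≠ 0)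
    (hT : T.IsSymm) (htr : T.trace = 0) (hb : ∀ y : Fin n → ℝ, |y ⬝ᵥ (T *ᵥ y)| ≤ y ⬝ᵥ y)
    {τ : ℝ} (h0 : 0 ≤ τ) (h1 : τ < 1) :
    ∃ w : Fin n → ℤ, w ≠ 0 ∧
      (nsq A w + τ * qf T A w) * Real.exp (τ ^ 2 * (∑ i, ∑ j, T i j ^ 2) / (4 * n))
        ≤ hermite n * |A.det| ^ ((2 : ℝ) / n) := by
  obtain ⟨B, hB1, hB2, hB3⟩ := deform (A := A) hT htr hb h0 h1
  have hBA : (B * A).det ≠ 0 := by
    rw [Matrix.det_mul]; exact mul_ne_zero hB1 hA
  obtain ⟨w, hw, hmin⟩ := exists_min hn hBA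
  refine ⟨w, hw, ?_⟩
  rw [← hB3, hmin]
  have h2 := le_hermite hn (B * A) hBA
  have hpos : 0 < |(B * A).det| ^ ((2 : ℝ) / n) := Real.rpow_pos_of_pos (abs_pos.2 hBA) _
  rw [div_le_iff₀ hpos] at h2
  set F := ∑ i, ∑ j, T i j ^ 2 with hF
  have h3 : |(B * A).det| ^ ((2 : ℝ) / n) * Real.exp (τ ^ 2 * F / (4 * n))
      ≤ |A.det| ^ ((2 : ℝ) / n) := by
    rw [Matrix.det_mul, abs_mul, Real.mul_rpow (abs_nonneg _) (abs_nonneg _)]
    have h4 : |B.det| ^ ((2 : ℝ) / n) ≤ Real.exp (-(τ ^ 2 * F / (4 * n))) := by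
      have h5 : |B.det| ^ ((2 : ℝ) / n) = (B.det ^ 2) ^ ((1 : ℝ) / n) := by
        rw [← sq_abs, ← Real.rpow_natCast, ← Real.rpow_mul (abs_nonneg _)]
        congr 1
        push_cast; ring
      rw [h5]
      have h6 : (B.det ^ 2) ^ ((1 : ℝ) / n) ≤ (Real.exp (-(τ ^ 2 * F / 4))) ^ ((1 : ℝ) / n) :=
        Real.rpow_le_rpow (sq_nonneg _) hB2 (by positivity)
      refine h6.trans (le_of_eq ?_)
      rw [← Real.exp_mul]
      congr 1
      have : (n : ℝ) ≠ 0 := by positivity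
      field_simp
    have h7 : 0 ≤ |A.det| ^ ((2 : ℝ) / n) := Real.rpow_nonneg (abs_nonneg _) _
    calc |B.det| ^ ((2 : ℝ) / n) * |A.det| ^ ((2 : ℝ) / n) * Real.exp (τ ^ 2 * F / (4 * n))
        ≤ Real.exp (-(τ ^ 2 * F / (4 * n))) * |A.det| ^ ((2 : ℝ) / n) *
          Real.exp (τ ^ 2 * F / (4 * n)) := by
          gcongr
      _ = |A.det| ^ ((2 : ℝ) / n) := by
          rw [mul_comm (Real.exp _) (|A.det| ^ _), mul_assoc, ← Real.exp_add]
          simp
  have hh : 0 ≤ hermite n := zero_le_one.trans (one_le_hermite hn)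
  calc minSq (B * A) * Real.exp (τ ^ 2 * F / (4 * n))
      ≤ hermite n * |(B * A).det| ^ ((2 : ℝ) / n) * Real.exp (τ ^ 2 * F / (4 * n)) := by
        gcongr
    _ = hermite n * (|(B * A).det| ^ ((2 : ℝ) / n) * Real.exp (τ ^ 2 * F / (4 * n))) := by ring
    _ ≤ hermite n * |A.det| ^ ((2 : ℝ) / n) := by gcongr

end Pool.Agent.Q219.HE
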