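import Pool.Agent.Q219.HE.Deform

/-! Short vectors of near-optimal lattices form an almost tight frame (for MP_ef2672_gt). -/

open Matrix Finset

namespace Pool.Agent.Q219.HE

open Pool.Agent.H160R3.Herm Pool.Agent.TH220.HG

theorem dual_repr {n : ℕ} (f : StrongDual ℝ (Fin n → Fin n → ℝ)) (M : Fin n → Fin n → ℝ) :
    f M = ∑ i, ∑ j, M i j * f (Pi.single i (Pi.single j 1)) := by
  have h : M = ∑ i, ∑ j, M i j • (Pi.single i (Pi.single j (1 : ℝ)) : Fin n → Fin n → ℝ) := by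
    funext a b
    simp only [Finset.sum_apply, Pi.smul_apply, smul_eq_mul]
    rw [Finset.sum_eq_single a]
    · rw [Finset.sum_eq_single b]
      · simp
      · intro j _ hj
        rw [Pi.single_eq_same, Pi.single_eq_of_ne (Ne.symm hj), mul_zero]
      · simp
    · intro i _ hi
      refine Finset.sum_eq_zero fun j _ => ?_
      rw [Pi.single_eq_of_ne (Ne.symm hi)]
      simp
    · simp
  conv_lhs => rw [h]
  simp only [map_sum, map_smul, smul_eq_mul]

theorem dot_form {n : ℕ} (T : Matrix (Fin n) (Fin n) ℝ) (y : Fin n → ℝ) :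
    y ⬝ᵥ (T *ᵥ y) = ∑ i, ∑ j, (y i * y j) * T i j := by
  unfold dotProduct Matrix.mulVec dotProduct
  refine Finset.sum_congr rfl fun i _ => ?_
  rw [Finset.mul_sum]
  refine Finset.sum_congr rfl fun j _ => ?_
  ring

theorem dot_self_pos {n : ℕ} {y : Fin n → ℝ} (hy : y ≠ 0) : 0 < y ⬝ᵥ y := by
  have h0 : 0 ≤ y ⬝ᵥ y := by
    unfold dotProduct
    exact Finset.sum_nonneg fun i _ => mul_self_nonneg _
  exact lt_of_le_of_ne h0 fun h => hy (dotProduct_self_eq_zero.1 h.symm)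

/-- the pairing with a matrix -/
noncomputable def ev {n : ℕ} (T : Matrix (Fin n) (Fin n) ℝ) : (Fin n → Fin n → ℝ) →ₗ[ℝ] ℝ where
  toFun M := ∑ i, ∑ j, M i j * T i j
  map_add' M N := by
    simp only [Pi.add_apply, add_mul, Finset.sum_add_distrib]
  map_smul' c M := by
    simp only [Pi.smul_apply, smul_eq_mul, RingHom.id_apply, Finset.mul_sum, mul_assoc]

theorem ev_apply {n : ℕ} (T : Matrix (Fin n) (Fin n) ℝ) (M : Fin n → Fin n → ℝ) :
    ev T M = ∑ i, ∑ j, M i j * T i j := rfl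

theorem continuous_ev {n : ℕ} (T : Matrix (Fin n) (Fin n) ℝ) : Continuous (ev T) := by
  have : (ev T : (Fin n → Fin n → ℝ) → ℝ) = fun M => ∑ i, ∑ j, M i j * T i j := rfl
  rw [this]
  fun_prop

/-- the vectors of squared length at most `t` times the minimum -/
theorem finite_le {n : ℕ} {A : Matrix (Fin n) (Fin n) ℝ} (hA : A.det ≠ 0) (t : ℝ) :
    {w : Fin n → ℤ | w ≠ 0 ∧ nsq A w ≤ t * minSq A}.Finite :=
  (finite_lt hA (t * minSq A + 1)).subset fun w hw => by
    have := hw.2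
    simp only [Set.mem_ofPred_eq]
    linarith

theorem eutaxy {n : ℕ} (hn : 0 < n) {A : Matrix (Fin n) (Fin n) ℝ} (hA : A.det ≠ 0) {ε η : ℝ}
    (hε : 0 < ε) (hη : ε < η) (hopt : hermite n ≤ (1 + ε) * gam A) :
    ∃ (S : Finset (Fin n → ℤ)) (p : (Fin n → ℤ) → ℝ),
      (∀ w ∈ S, w ≠ 0 ∧ nsq A w ≤ (1 + η) * minSq A) ∧ (∀ w ∈ S, 0 ≤ p w) ∧ ∑ w ∈ S, p w = 1 ∧
      ∀ T : Matrix (Fin n) (Fin n) ℝ, T.IsSymm → T.trace = 0 → ∀ c : ℝ,
        (∀ y : Fin n → ℝ, |y ⬝ᵥ (T *ᵥ y)| ≤ c * (y ⬝ᵥ y)) →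
        |∑ w ∈ S, p w * qf T A w| ≤ ε * (1 + η) / (η - ε) * c * minSq A := by
  classical
  set m := minSq A with hm
  have hm0 : 0 < m := minSq_pos hn hA
  set δ : ℝ := ε * (1 + η) / (η - ε) with hδ
  have hη1 : 0 < 1 + η := by linarith
  have hηε : 0 < η - ε := by linarith
  have hδ0 : 0 < δ := by rw [hδ]; positivity
  set q : (Fin n → ℤ) → (Fin n → Fin n → ℝ) := fun w i j =>
    (A *ᵥ fun j => (w j : ℝ)) i * (A *ᵥ fun j => (w j : ℝ)) j with hq
  set S0 : Set (Fin n → ℤ) := {w | w ≠ 0 ∧ nsq A w ≤ (1 + η) * m} with hS0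
  have hS0f : S0.Finite := finite_le hA (1 + η)
  have hqf : ∀ (T : Matrix (Fin n) (Fin n) ℝ) w, qf T A w = ∑ i, ∑ j, q w i j * T i j :=
    fun T w => dot_form T _
  set C : Set (Fin n → Fin n → ℝ) := {M | ∀ T : Matrix (Fin n) (Fin n) ℝ, T.IsSymm →
    T.trace = 0 → ∀ c : ℝ, (∀ y : Fin n → ℝ, |y ⬝ᵥ (T *ᵥ y)| ≤ c * (y ⬝ᵥ y)) →
    |∑ i, ∑ j, M i j * T i j| ≤ δ * c * m} with hC
  have hcnn : ∀ (T : Matrix (Fin n) (Fin n) ℝ) (c : ℝ),
      (∀ y : Fin n → ℝ, |y ⬝ᵥ (T *ᵥ y)| ≤ c * (y ⬝ᵥ y)) → 0 ≤ c := by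
    intro T c hc
    have h1 := hc (fun _ => 1)
    have h2 : 0 < (fun _ : Fin n => (1 : ℝ)) ⬝ᵥ (fun _ : Fin n => (1 : ℝ)) := by
      apply dot_self_pos
      intro h
      have := congrFun h ⟨0, hn⟩
      simp at this
    by_contra h3
    push Not at h3
    have := (abs_nonneg _).trans h1
    nlinarith
  by_contra hcon
  have hdisj : Disjoint (convexHull ℝ (q '' S0)) C := by
    rw [Set.disjoint_left]
    intro M hM hMC
    apply hcon
    rw [mem_convexHull_iff_exists_fintype] at hM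
    obtain ⟨ι, hι, p, z, hp0, hp1, hz, hpz⟩ := hM
    choose x hxS hxz using hz
    refine ⟨hS0f.toFinset, fun w => ∑ i, if x i = w then p i else 0, ?_, ?_, ?_, ?_⟩
    · intro w hw
      exact (hS0f.mem_toFinset.1 hw)
    · intro w _
      refine Finset.sum_nonneg fun i _ => ?_
      split_ifs
      · exact hp0 i
      · exact le_rfl
    · rw [Finset.sum_comm]
      rw [← hp1]
      refine Finset.sum_congr rfl fun i _ => ?_
      rw [Finset.sum_ite_eq, if_pos (hS0f.mem_toFinset.2 (hxS i))]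
    · intro T hT htr c hc
      have h1 := hMC T hT htr c hc
      have h2 : ∑ i, ∑ j, M i j * T i j
          = ∑ w ∈ hS0f.toFinset, (∑ i, if x i = w then p i else 0) * qf T A w := by
        have e1 : ∑ w ∈ hS0f.toFinset, (∑ i, if x i = w then p i else 0) * qf T A w
            = ∑ i, p i * qf T A (x i) := by
          simp only [Finset.sum_mul]
          rw [Finset.sum_comm]
          refine Finset.sum_congr rfl fun i _ => ?_
          simp only [ite_mul, zero_mul]
          rw [Finset.sum_ite_eq, if_pos (hS0f.mem_toFinset.2 (hxS i))]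
        rw [e1, ← ev_apply, ← hpz, map_sum]
        refine Finset.sum_congr rfl fun i _ => ?_
        rw [map_smul, smul_eq_mul, hqf, ← ev_apply, hxz]
      rw [← h2]
      exact h1
  have hK : IsCompact (convexHull ℝ (q '' S0)) := (hS0f.image q).isCompact_convexHull ℝ
  have hCconv : Convex ℝ C := by
    intro M hM N hN a b ha hb hab T hT htr c hc
    have h1 := hM T hT htr c hc
    have h2 := hN T hT htr c hc
    rw [← ev_apply] at h1 h2 ⊢
    rw [map_add, map_smul, map_smul, smul_eq_mul, smul_eq_mul]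
    calc |a * ev T M + b * ev T N| ≤ |a * ev T M| + |b * ev T N| := abs_add_le _ _
      _ = a * |ev T M| + b * |ev T N| := by
          rw [abs_mul, abs_mul, abs_of_nonneg ha, abs_of_nonneg hb]
      _ ≤ a * (δ * c * m) + b * (δ * c * m) := by gcongr
      _ = δ * c * m := by rw [← add_mul, hab, one_mul]
  have hCclosed : IsClosed C := by
    have : C = ⋂ (T : Matrix (Fin n) (Fin n) ℝ), ⋂ (_ : T.IsSymm), ⋂ (_ : T.trace = 0),
        ⋂ (c : ℝ), ⋂ (_ : ∀ y : Fin n → ℝ, |y ⬝ᵥ (T *ᵥ y)| ≤ c * (y ⬝ᵥ y)),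
          {M | |ev T M| ≤ δ * c * m} := by
      ext M
      simp only [hC, Set.mem_ofPred_eq, Set.mem_iInter, ev_apply]
    rw [this]
    refine isClosed_iInter fun T => isClosed_iInter fun _ => isClosed_iInter fun _ =>
      isClosed_iInter fun c => isClosed_iInter fun _ => ?_
    exact isClosed_le ((continuous_ev T).abs) continuous_const
  obtain ⟨f, u, v, hfu, huv, hfv⟩ :=
    geometric_hahn_banach_compact_closed (convex_convexHull ℝ _) hK hCconv hCclosed hdisj
  set F : Fin n → Fin n → ℝ := fun i j => f (Pi.single i (Pi.single j 1)) with hF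
  set T : Matrix (Fin n) (Fin n) ℝ := fun i j => -((F i j + F j i) / 2) with hT
  have hTs : T.IsSymm := by
    ext i j
    simp only [Matrix.transpose_apply, hT]
    ring
  have hsym : ∀ M : Fin n → Fin n → ℝ, (∀ i j, M i j = M j i) → ev T M = -f M := by
    intro M hM
    rw [dual_repr f M, ev_apply]
    have e1 : ∑ i, ∑ j, M i j * T i j
        = -((∑ i, ∑ j, M i j * F i j + ∑ i, ∑ j, M i j * F j i) / 2) := by
      rw [← Finset.sum_add_distrib, Finset.sum_div, ← Finset.sum_neg_distrib]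
      refine Finset.sum_congr rfl fun i _ => ?_
      rw [← Finset.sum_add_distrib, Finset.sum_div, ← Finset.sum_neg_distrib]
      refine Finset.sum_congr rfl fun j _ => ?_
      rw [hT]; ring
    have e2 : ∑ i, ∑ j, M i j * F j i = ∑ i, ∑ j, M i j * F i j := by
      rw [Finset.sum_comm]
      refine Finset.sum_congr rfl fun i _ => Finset.sum_congr rfl fun j _ => ?_
      rw [hM]
    rw [e1, e2]
    ring
  set α : ℝ := -v with hα
  have hKα : ∀ w ∈ S0, α < qf T A w := by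
    intro w hw
    have h1 := hfu (q w) (subset_convexHull ℝ _ ⟨w, hw, rfl⟩)
    have h2 : ev T (q w) = -f (q w) := hsym _ fun i j => by rw [hq]; ring
    rw [hqf, ← ev_apply, h2, hα]
    linarith
  have hCα : ∀ M ∈ C, (∀ i j, M i j = M j i) → ev T M < α := by
    intro M hM hMs
    rw [hsym M hMs, hα]
    have := hfv M hM
    linarith
  have hα0 : 0 < α := by
    have h1 := hCα 0 (by
      intro T' _ _ c hc
      have := hcnn T' c hc
      simp only [Pi.zero_apply, zero_mul, Finset.sum_const_zero, abs_zero]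
      positivity) (fun i j => rfl)
    rwa [map_zero] at h1
  have htr : T.trace = 0 := by
    by_contra hne
    have h1 := hCα (fun i j => if i = j then α / T.trace else 0) (by
      intro T' _ htr' c hc
      have := hcnn T' c hc
      have e1 : ∑ i, ∑ j, (if i = j then α / T.trace else 0) * T' i j = 0 := by
        simp only [ite_mul, zero_mul, Finset.sum_ite_eq, Finset.mem_univ, if_true]
        rw [← Finset.mul_sum]
        have : ∑ i, T' i i = 0 := htr'
        rw [this, mul_zero]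
      rw [e1, abs_zero]
      positivity) (fun i j => by simp [eq_comm])
    have e2 : ev T (fun i j => if i = j then α / T.trace else 0) = α := by
      rw [ev_apply]
      simp only [ite_mul, zero_mul, Finset.sum_ite_eq, Finset.mem_univ, if_true]
      rw [← Finset.mul_sum]
      have : ∑ i, T i i = T.trace := rfl
      rw [this]
      field_simp
    rw [e2] at h1
    exact lt_irrefl _ h1
  have hTb : ∀ y : Fin n → ℝ, δ * m * |y ⬝ᵥ (T *ᵥ y)| ≤ α * (y ⬝ᵥ y) := by
    intro y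
    by_cases hy : y = 0
    · subst hy; simp
    have hyy := dot_self_pos hy
    have key1 : ∀ s : ℝ, |s| = 1 → δ * m * (s * (y ⬝ᵥ (T *ᵥ y))) ≤ α * (y ⬝ᵥ y) := by
      intro s hs
      have h1 := hCα (fun i j => s * (δ * m) / (y ⬝ᵥ y) * (y i * y j)) (by
        intro T' _ _ c hc
        have e1 : ∑ i, ∑ j, s * (δ * m) / (y ⬝ᵥ y) * (y i * y j) * T' i j
            = s * (δ * m) / (y ⬝ᵥ y) * (y ⬝ᵥ (T' *ᵥ y)) := by
          rw [dot_form]
          simp only [Finset.mul_sum, mul_assoc]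
        rw [e1, abs_mul, abs_div, abs_mul, hs, abs_of_pos hyy, abs_of_pos (by positivity)]
        calc 1 * (δ * m) / (y ⬝ᵥ y) * |y ⬝ᵥ (T' *ᵥ y)|
            ≤ 1 * (δ * m) / (y ⬝ᵥ y) * (c * (y ⬝ᵥ y)) := by
              have := hc y
              gcongr
          _ = δ * c * m := by field_simp) (fun i j => by ring)
      have e2 : ev T (fun i j => s * (δ * m) / (y ⬝ᵥ y) * (y i * y j))
          = s * (δ * m) / (y ⬝ᵥ y) * (y ⬝ᵥ (T *ᵥ y)) := by
        rw [ev_apply, dot_form]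
        simp only [Finset.mul_sum, mul_assoc]
      rw [e2] at h1
      have h2 : s * (δ * m) / (y ⬝ᵥ y) * (y ⬝ᵥ (T *ᵥ y)) * (y ⬝ᵥ y) ≤ α * (y ⬝ᵥ y) :=
        mul_le_mul_of_nonneg_right h1.le hyy.le
      have h3 : s * (δ * m) / (y ⬝ᵥ y) * (y ⬝ᵥ (T *ᵥ y)) * (y ⬝ᵥ y)
          = δ * m * (s * (y ⬝ᵥ (T *ᵥ y))) := by
        field_simp
      linarith
    rcases abs_cases (y ⬝ᵥ (T *ᵥ y)) with ⟨h, _⟩ | ⟨h, _⟩
    · rw [h]
      have := key1 1 (by norm_num)
      rwa [one_mul] at this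
    · rw [h]
      have := key1 (-1) (by norm_num)
      rwa [neg_one_mul] at this
  set c0 : ℝ := α / (δ * m) with hc0
  have hc0pos : 0 < c0 := by rw [hc0]; positivity
  set τ : ℝ := (η - ε) / (1 + η) with hτ
  have hτ0 : 0 < τ := by rw [hτ]; positivity
  have hτ1 : τ < 1 := by
    rw [hτ, div_lt_one hη1]; linarith
  obtain ⟨w, hw0, hw⟩ := key hn hA (T := c0⁻¹ • T) (by
      rw [Matrix.IsSymm, Matrix.transpose_smul, hTs.eq]) (by
      rw [Matrix.trace_smul, htr, smul_zero]) (by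
      intro y
      rw [Matrix.smul_mulVec, dotProduct_smul, smul_eq_mul, abs_mul, abs_of_pos (by positivity)]
      have h1 := hTb y
      have h2 : |y ⬝ᵥ (T *ᵥ y)| ≤ c0 * (y ⬝ᵥ y) := by
        rw [hc0, div_mul_eq_mul_div, le_div_iff₀ (by positivity)]
        linarith
      calc c0⁻¹ * |y ⬝ᵥ (T *ᵥ y)| ≤ c0⁻¹ * (c0 * (y ⬝ᵥ y)) := by gcongr
        _ = y ⬝ᵥ y := by field_simp) hτ0.le hτ1
  have hqs : qf (c0⁻¹ • T) A w = c0⁻¹ * qf T A w := by
    unfold qf
    rw [Matrix.smul_mulVec, dotProduct_smul, smul_eq_mul]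
  rw [hqs] at hw
  have habs : |c0⁻¹ * qf T A w| ≤ nsq A w := by
    rw [abs_mul, abs_of_pos (by positivity), nsq_eq_dot]
    have h1 := hTb (A *ᵥ fun j => (w j : ℝ))
    have h2 : |qf T A w| ≤ c0 * ((A *ᵥ fun j => (w j : ℝ)) ⬝ᵥ (A *ᵥ fun j => (w j : ℝ))) := by
      rw [hc0, div_mul_eq_mul_div, le_div_iff₀ (by positivity)]
      unfold qf
      linarith
    calc c0⁻¹ * |qf T A w| ≤ c0⁻¹ * (c0 * ((A *ᵥ fun j => (w j : ℝ)) ⬝ᵥ
          (A *ᵥ fun j => (w j : ℝ)))) := by gcongr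
      _ = _ := by field_simp
  have hns := nsq_nonneg A w
  have hlow : 0 ≤ nsq A w + τ * (c0⁻¹ * qf T A w) := by
    have := (abs_le.1 habs).1
    nlinarith
  have hE : (1 : ℝ) ≤ Real.exp (τ ^ 2 * (∑ i, ∑ j, (c0⁻¹ • T) i j ^ 2) / (4 * n)) := by
    apply Real.one_le_exp
    have : 0 ≤ ∑ i, ∑ j, (c0⁻¹ • T) i j ^ 2 :=
      Finset.sum_nonneg fun i _ => Finset.sum_nonneg fun j _ => sq_nonneg _
    positivity
  have hdet : 0 < |A.det| ^ ((2 : ℝ) / n) := Real.rpow_pos_of_pos (abs_pos.2 hA) _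
  have hup : hermite n * |A.det| ^ ((2 : ℝ) / n) ≤ (1 + ε) * m := by
    have h1 : hermite n * |A.det| ^ ((2 : ℝ) / n) ≤ (1 + ε) * gam A * |A.det| ^ ((2 : ℝ) / n) := by
      gcongr
    refine h1.trans (le_of_eq ?_)
    unfold gam
    rw [mul_assoc, div_mul_cancel₀ _ hdet.ne']
  have hfin : nsq A w + τ * (c0⁻¹ * qf T A w) ≤ (1 + ε) * m := by
    refine le_trans ?_ (hw.trans hup)
    exact le_mul_of_one_le_right hlow hE
  by_cases hwS : w ∈ S0
  · have h1 := hKα w hwS
    have h2 : m ≤ nsq A w := minSq_le A w hw0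
    have h3 : δ * m < c0⁻¹ * qf T A w := by
      have : c0⁻¹ * α = δ * m := by
        rw [hc0]; field_simp
      rw [← this]
      gcongr
    have h4 : τ * δ = ε := by
      rw [hτ, hδ]; field_simp
    have h5 : τ * (δ * m) < τ * (c0⁻¹ * qf T A w) := by gcongr
    have h6 : τ * (δ * m) = ε * m := by rw [← mul_assoc, h4]
    linarith
  · have h1 : (1 + η) * m < nsq A w := by
      by_contra h
      push Not at h
      exact hwS ⟨hw0, h⟩
    have h2 : (1 - τ) * nsq A w ≤ nsq A w + τ * (c0⁻¹ * qf T A w) := by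
      have := (abs_le.1 habs).1
      nlinarith
    have h3 : (1 - τ) * (1 + η) = 1 + ε := by
      rw [hτ]; field_simp; ring
    have h4 : (1 + ε) * m < (1 - τ) * nsq A w := by
      rw [← h3, mul_assoc]
      have : 0 < 1 - τ := by linarith
      gcongr
    linarith

end Pool.Agent.Q219.HE
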