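import Pool.Agent.Q219.HE.Deform

/-! Short vectors of near-optimal lattices in cones `⟨v, T v⟩ < 0` (for MP_ef2672_gt). -/

open Matrix Finset

namespace Pool.Agent.Q219.HE

open Pool.Agent.H160R3.Herm Pool.Agent.TH220.HG

theorem det_ratio {n : ℕ} {A B : Matrix (Fin n) (Fin n) ℝ} {F τ : ℝ}
    (hn : 0 < n) (hB2 : B.det ^ 2 ≤ Real.exp (-(τ ^ 2 * F / 4))) :
    |(B * A).det| ^ ((2 : ℝ) / n) * Real.exp (τ ^ 2 * F / (4 * n)) ≤ |A.det| ^ ((2 : ℝ) / n) := by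
  rw [Matrix.det_mul, abs_mul, Real.mul_rpow (abs_nonneg _) (abs_nonneg _)]
  have h4 : |B.det| ^ ((2 : ℝ) / n) ≤ Real.exp (-(τ ^ 2 * F / (4 * n))) := by
    have h5 : |B.det| ^ ((2 : ℝ) / n) = (B.det ^ 2) ^ ((1 : ℝ) / n) := by
      rw [← sq_abs, ← Real.rpow_natCast, ← Real.rpow_mul (abs_nonneg _)]
      congr 1
      push_cast; ring
    rw [h5]
    have h6 : (B.det ^ 2) ^ ((1 : ℝ) / n) ≤ (Real.exp (-(τ ^ 2 * F / 4))) ^ ((1 : ℝ) / n) :=
      Real.rpow_le_rpow (sq_nonneg _) hB2 (by positivity)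
    refine h6.trans (le_of_eq ?_)
    rw [← Real.exp_mul]
    congr 1
    have : (n : ℝ) ≠ 0 := by positivity
    field_simp
  have h7 : 0 ≤ |A.det| ^ ((2 : ℝ) / n) := Real.rpow_nonneg (abs_nonneg _) _
  calc |B.det| ^ ((2 : ℝ) / n) * |A.det| ^ ((2 : ℝ) / n) * Real.exp (τ ^ 2 * F / (4 * n))
      ≤ Real.exp (-(τ ^ 2 * F / (4 * n))) * |A.det| ^ ((2 : ℝ) / n) *
        Real.exp (τ ^ 2 * F / (4 * n)) := by
        gcongr
    _ = |A.det| ^ ((2 : ℝ) / n) := by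
        rw [mul_comm (Real.exp _) (|A.det| ^ _), mul_assoc, ← Real.exp_add]
        simp

theorem perf {n : ℕ} (hn : 0 < n) {A : Matrix (Fin n) (Fin n) ℝ} (hA : A.det ≠ 0) {ε τ R : ℝ}
    (hε : 0 ≤ ε) (hopt : hermite n ≤ (1 + ε) * gam A) (hτ0 : 0 ≤ τ) (hτ1 : τ < 1) (hR : 0 < R)
    {T : Matrix (Fin n) (Fin n) ℝ} (hT : T.IsSymm) (htr : T.trace = 0)
    (hb : ∀ y : Fin n → ℝ, |y ⬝ᵥ (T *ᵥ y)| ≤ y ⬝ᵥ y) :
    (R * Real.exp (τ ^ 2 * (∑ i, ∑ j, T i j ^ 2) / (4 * n)) / (1 + ε)) ^ ((n : ℝ) / 2)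
      ≤ ({w : Fin n → ℤ | w ≠ 0 ∧ nsq A w + τ * qf T A w < R * minSq A}.ncard : ℝ) + 1 := by
  obtain ⟨B, hB1, hB2, hB3⟩ := deform (A := A) hT htr hb hτ0 hτ1
  set F := ∑ i, ∑ j, T i j ^ 2 with hF
  have hBA : (B * A).det ≠ 0 := by
    rw [Matrix.det_mul]; exact mul_ne_zero hB1 hA
  have hm : 0 < minSq A := minSq_pos hn hA
  have hmB : 0 < minSq (B * A) := minSq_pos hn hBA
  have hn0 : (0 : ℝ) < n := by exact_mod_cast hn
  have hdA : 0 < |A.det| ^ ((2 : ℝ) / n) := Real.rpow_pos_of_pos (abs_pos.2 hA) _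
  have hdB : 0 < |(B * A).det| ^ ((2 : ℝ) / n) := Real.rpow_pos_of_pos (abs_pos.2 hBA) _
  have hdr := det_ratio (A := A) hn hB2
  set E := Real.exp (τ ^ 2 * F / (4 * n)) with hE
  have hE0 : 0 < E := Real.exp_pos _
  have hup : hermite n * |A.det| ^ ((2 : ℝ) / n) ≤ (1 + ε) * minSq A := by
    have h1 : hermite n * |A.det| ^ ((2 : ℝ) / n) ≤ (1 + ε) * gam A * |A.det| ^ ((2 : ℝ) / n) := by
      gcongr
    refine h1.trans (le_of_eq ?_)
    unfold gam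
    rw [mul_assoc, div_mul_cancel₀ _ hdA.ne']
  have hh : 0 < hermite n := zero_lt_one.trans_le (one_le_hermite hn)
  have hset : {w : Fin n → ℤ | w ≠ 0 ∧ nsq A w + τ * qf T A w < R * minSq A}
      = {w : Fin n → ℤ | w ≠ 0 ∧ nsq (B * A) w < R * minSq A} := by
    ext w
    simp only [Set.mem_ofPred_eq, hB3]
  rw [hset]
  by_cases hlt : minSq (B * A) < R * minSq A
  · have ht : 1 < R * minSq A / minSq (B * A) := (one_lt_div hmB).2 hlt
    have h1 := sub_ineq hn hBA ht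
    have h2 : short (B * A) (R * minSq A / minSq (B * A))
        = {w : Fin n → ℤ | w ≠ 0 ∧ nsq (B * A) w < R * minSq A} := by
      unfold short
      rw [div_mul_cancel₀ _ hmB.ne']
    rw [h2] at h1
    set N : ℝ := ({w : Fin n → ℤ | w ≠ 0 ∧ nsq (B * A) w < R * minSq A}.ncard : ℝ) with hN
    have hN0 : 0 ≤ N := Nat.cast_nonneg _
    have h3 : R * minSq A / minSq (B * A) * gam (B * A)
        = R * minSq A / |(B * A).det| ^ ((2 : ℝ) / n) := by
      unfold gam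
      field_simp
    rw [h3, div_le_iff₀ hdB] at h1
    have h4 : R * E * minSq A ≤ N ^ ((2 : ℝ) / n) * ((1 + ε) * minSq A) := by
      calc R * E * minSq A = R * minSq A * E := by ring
        _ ≤ N ^ ((2 : ℝ) / n) * hermite n * |(B * A).det| ^ ((2 : ℝ) / n) * E := by gcongr
        _ = N ^ ((2 : ℝ) / n) * (hermite n * (|(B * A).det| ^ ((2 : ℝ) / n) * E)) := by ring
        _ ≤ N ^ ((2 : ℝ) / n) * (hermite n * |A.det| ^ ((2 : ℝ) / n)) := by gcongr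
        _ ≤ _ := by gcongr
    have h5 : R * E / (1 + ε) ≤ N ^ ((2 : ℝ) / n) := by
      rw [div_le_iff₀ (by positivity)]
      have h6 : R * E * minSq A ≤ (N ^ ((2 : ℝ) / n) * (1 + ε)) * minSq A := by
        calc _ ≤ _ := h4
          _ = _ := by ring
      exact le_of_mul_le_mul_right h6 hm
    have h7 : (R * E / (1 + ε)) ^ ((n : ℝ) / 2) ≤ (N ^ ((2 : ℝ) / n)) ^ ((n : ℝ) / 2) :=
      Real.rpow_le_rpow (by positivity) h5 (by positivity)
    have h8 : (N ^ ((2 : ℝ) / n)) ^ ((n : ℝ) / 2) = N := by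
      rw [← Real.rpow_mul hN0]
      have : (2 : ℝ) / n * (n / 2) = 1 := by field_simp
      rw [this, Real.rpow_one]
    rw [h8] at h7
    linarith
  · push Not at hlt
    have h1 := le_hermite hn (B * A) hBA
    rw [div_le_iff₀ hdB] at h1
    have h2 : R * E * minSq A ≤ (1 + ε) * minSq A := by
      calc R * E * minSq A = R * minSq A * E := by ring
        _ ≤ minSq (B * A) * E := by gcongr
        _ ≤ hermite n * |(B * A).det| ^ ((2 : ℝ) / n) * E := by gcongr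
        _ = hermite n * (|(B * A).det| ^ ((2 : ℝ) / n) * E) := by ring
        _ ≤ hermite n * |A.det| ^ ((2 : ℝ) / n) := by gcongr
        _ ≤ _ := hup
    have h3 : R * E / (1 + ε) ≤ 1 := by
      rw [div_le_one (by positivity)]
      exact le_of_mul_le_mul_right h2 hm
    have h4 : (R * E / (1 + ε)) ^ ((n : ℝ) / 2) ≤ 1 :=
      Real.rpow_le_one (by positivity) h3 (by positivity)
    have h5 : (0 : ℝ) ≤ ({w : Fin n → ℤ | w ≠ 0 ∧ nsq (B * A) w < R * minSq A}.ncard : ℝ) :=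
      Nat.cast_nonneg _
    linarith

end Pool.Agent.Q219.HE
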